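import Mathlib

open Finset

namespace Pool.Agent.Results.MP_3eb7f1_co.MinClosePairs

/-- `closePairs G k` is `h_k(G)`: the number of two-element sets of vertices of `G`
whose degrees differ by less than `k`. -/
def closePairs {V : Type*} [Fintype V] [DecidableEq V] (G : SimpleGraph V)
    [DecidableRel G.Adj] (k : ℕ) : ℕ :=
  #{s ∈ (univ : Finset V).powersetCard 2 |
      ∀ x ∈ s, ∀ y ∈ s, |(G.degree x : ℤ) - (G.degree y : ℤ)| < (k : ℤ)}

/-- `f0 n k` is the conjectured minimum: with `q = ⌈n / k⌉` and `t = n - k (q - 1)`, it is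
`(q - 2) * C(k, 2) + C(k + 1, 2) + C(t - 1, 2)`. -/
def f0 (n k : ℕ) : ℕ :=
  (⌈(n : ℚ) / (k : ℚ)⌉₊ - 2) * k.choose 2 + (k + 1).choose 2 +
    (n - k * (⌈(n : ℚ) / (k : ℚ)⌉₊ - 1) - 1).choose 2

section Aux

variable {V : Type*} [Fintype V] [DecidableEq V]

/-- A set of `t` elements on which `d` is largest. -/
theorem exists_top (d : V → ℕ) (t N : ℕ) (hN : ∀ v, d v < N) (ht : t ≤ Fintype.card V) :
    ∃ A : Finset V, #A = t ∧
      ∀ j, min t #{v : V | j ≤ d v} ≤ #{v ∈ A | j ≤ d v} := by
  classical
  rcases Nat.eq_zero_or_pos t with h0 | hpos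
  · subst h0
    exact ⟨∅, by simp, fun j => by simp⟩
  -- largest threshold whose upper set has at least t elements
  have hex : ∃ θ, t ≤ #{v : V | θ ≤ d v} ∧ #{v : V | θ + 1 ≤ d v} < t := by
    by_contra hcon
    push Not at hcon
    have hall : ∀ θ, t ≤ #{v : V | θ ≤ d v} := by
      intro θ
      induction θ with
      | zero => simpa using ht
      | succ m ih => exact hcon m ih
    have h1 := hall N
    have h2 : ({v : V | N ≤ d v} : Finset V) = ∅ := by
      ext v
      simp [hN v]
    rw [h2] at h1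
    simp at h1
    omega
  obtain ⟨θ, hθ1, hθ2⟩ := hex
  obtain ⟨A, hA1, hA2, hA3⟩ := Finset.exists_subsuperset_card_eq
    (s := ({v : V | θ + 1 ≤ d v} : Finset V)) (t := ({v : V | θ ≤ d v} : Finset V)) (n := t)
    (by intro v hv; simp at hv ⊢; omega) hθ2.le hθ1
  refine ⟨A, hA3, fun j => ?_⟩
  rcases Nat.lt_or_ge θ j with hj | hj
  · -- j ≥ θ + 1
    refine (min_le_right _ _).trans (card_le_card ?_)
    intro v hv
    simp only [mem_filter, mem_univ, true_and] at hv ⊢
    exact ⟨hA1 (by simp; omega), hv⟩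
  · refine (min_le_left _ _).trans ?_
    rw [← hA3]
    refine card_le_card ?_
    intro v hv
    have := hA2 hv
    simp only [mem_filter, mem_univ, true_and] at this ⊢
    exact ⟨hv, by omega⟩

/-- A set of `t` elements on which `d` is smallest. -/
theorem exists_bot (d : V → ℕ) (t N : ℕ) (hN : ∀ v, d v < N) (ht : t ≤ Fintype.card V) :
    ∃ B : Finset V, #B = t ∧
      ∀ j, min t #{v : V | d v < j} ≤ #{v ∈ B | d v < j} := by
  classical
  rcases Nat.eq_zero_or_pos t with h0 | hpos
  · subst h0
    exact ⟨∅, by simp, fun j => by simp⟩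
  have hex : ∃ θ, #{v : V | d v < θ} < t ∧ t ≤ #{v : V | d v < θ + 1} := by
    by_contra hcon
    push Not at hcon
    have hall : ∀ θ, #{v : V | d v < θ} < t := by
      intro θ
      induction θ with
      | zero => simpa using hpos
      | succ m ih => exact hcon m ih
    have h1 := hall N
    have h2 : ({v : V | d v < N} : Finset V) = univ := by
      ext v
      simp [hN v]
    rw [h2] at h1
    simp at h1
    omega
  obtain ⟨θ, hθ1, hθ2⟩ := hex
  obtain ⟨B, hB1, hB2, hB3⟩ := Finset.exists_subsuperset_card_eq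
    (s := ({v : V | d v < θ} : Finset V)) (t := ({v : V | d v < θ + 1} : Finset V)) (n := t)
    (by intro v hv; simp at hv ⊢; omega) hθ1.le hθ2
  refine ⟨B, hB3, fun j => ?_⟩
  rcases Nat.lt_or_ge θ j with hj | hj
  · refine (min_le_left _ _).trans ?_
    rw [← hB3]
    refine card_le_card ?_
    intro v hv
    have := hB2 hv
    simp only [mem_filter, mem_univ, true_and] at this ⊢
    exact ⟨hv, by omega⟩
  · refine (min_le_right _ _).trans (card_le_card ?_)
    intro v hv
    simp only [mem_filter, mem_univ, true_and] at hv ⊢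
    exact ⟨hB1 (by simp; omega), hv⟩

theorem sum_eq_layers (d : V → ℕ) (A : Finset V) (N : ℕ) (hN : ∀ v, d v ≤ N) :
    ∑ v ∈ A, d v = ∑ j ∈ range N, #{v ∈ A | j < d v} := by
  classical
  have h1 : ∀ v ∈ A, d v = ∑ j ∈ range N, (if j < d v then 1 else 0) := by
    intro v _
    rw [Finset.sum_ite, Finset.sum_const_zero, add_zero, Finset.sum_const, smul_eq_mul, mul_one]
    have : (filter (fun j => j < d v) (range N)) = range (d v) := by
      ext j
      simp only [mem_filter, mem_range]
      have := hN v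
      omega
    rw [this, card_range]
  rw [Finset.sum_congr rfl h1, Finset.sum_comm]
  refine Finset.sum_congr rfl fun j _ => ?_
  rw [Finset.card_filter]

/-- The threshold lemma. -/
theorem exists_threshold (d : V → ℕ) (k p t : ℕ) (hp : 1 ≤ p) (ht : 1 ≤ t)
    (htk : t ≤ k) (hV : Fintype.card V = p * k + t) (hd : ∀ v, d v < p * k + t)
    (hEG : ∀ A B : Finset V, #A = t → #B = t → Disjoint A B →
      ∑ v ∈ A, d v ≤ ∑ v ∈ B, d v + t * (p * k - 1)) :
    (#{v : V | p * k ≤ d v} < t) ∨ (#{v : V | d v < t} < t) ∨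
      (t ≤ #{v : V | p * k ≤ d v} ∧ t ≤ #{v : V | d v < t} ∧
        ∃ i, i ≤ t ∧ #{v : V | p * k + i ≤ d v} + #{v : V | d v < i} < t) := by
  classical
  by_contra hcon
  push Not at hcon
  obtain ⟨h1, h2, h3⟩ := hcon
  have h3 := h3 h1 h2
  have hkp : k ≤ p * k := Nat.le_mul_of_pos_left k hp
  have htV : t ≤ Fintype.card V := by rw [hV]; omega
  obtain ⟨A, hA, hAU⟩ := exists_top d t (p * k + t) hd htV
  obtain ⟨B, hB, hBL⟩ := exists_bot d t (p * k + t) hd htV
  have hAall : ∀ v ∈ A, p * k ≤ d v := by
    have h4 := hAU (p * k)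
    rw [min_eq_left h1, ← hA] at h4
    have h5 : {v ∈ A | p * k ≤ d v} = A := Finset.eq_of_subset_of_card_le (filter_subset _ _) h4
    intro v hv
    rw [← h5] at hv
    exact (mem_filter.mp hv).2
  have hBall : ∀ v ∈ B, d v < t := by
    have h4 := hBL t
    rw [min_eq_left h2] at h4
    have h5 : {v ∈ B | d v < t} = B :=
      Finset.eq_of_subset_of_card_le (filter_subset _ _) (by rw [hB]; exact h4)
    intro v hv
    rw [← h5] at hv
    exact (mem_filter.mp hv).2
  have hdisj : Disjoint A B := by
    rw [Finset.disjoint_left]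
    intro v hvA hvB
    have := hAall v hvA
    have := hBall v hvB
    omega
  have hE := hEG A B hA hB hdisj
  have hN : ∀ v, d v ≤ p * k + (t - 1) := fun v => by have := hd v; omega
  rw [sum_eq_layers d A _ hN, sum_eq_layers d B _ hN] at hE
  -- complement the B layers
  have hBc : ∑ j ∈ range (p * k + (t - 1)), #{v ∈ B | j < d v} +
      ∑ j ∈ range (p * k + (t - 1)), #{v ∈ B | d v < j + 1} = (p * k + (t - 1)) * t := by
    rw [← Finset.sum_add_distrib]
    have : ∀ j ∈ range (p * k + (t - 1)),
        #{v ∈ B | j < d v} + #{v ∈ B | d v < j + 1} = t := by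
      intro j _
      rw [← hB, ← Finset.card_filter_add_card_filter_not (s := B) (p := fun v => j < d v)]
      congr 2
      ext v
      simp only [mem_filter, not_lt, Nat.lt_succ_iff]
    rw [Finset.sum_congr rfl this, Finset.sum_const, card_range, smul_eq_mul]
  -- lower bounds
  have hAsum : p * k * t + ∑ i ∈ range (t - 1), #{v ∈ A | p * k + i < d v} ≤
      ∑ j ∈ range (p * k + (t - 1)), #{v ∈ A | j < d v} := by
    rw [Finset.sum_range_add]
    refine Nat.add_le_add ?_ le_rfl
    have : ∀ j ∈ range (p * k), t ≤ #{v ∈ A | j < d v} := by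
      intro j hj
      rw [← hA]
      refine card_le_card fun v hv => ?_
      have := hAall v hv
      rw [mem_range] at hj
      exact mem_filter.mpr ⟨hv, by omega⟩
    calc p * k * t = ∑ j ∈ range (p * k), t := by
          rw [Finset.sum_const, card_range, smul_eq_mul]
      _ ≤ _ := Finset.sum_le_sum this
  have hBsum : p * k * t + ∑ i ∈ range (t - 1), #{v ∈ B | d v < i + 1} ≤
      ∑ j ∈ range (p * k + (t - 1)), #{v ∈ B | d v < j + 1} := by
    rw [Nat.add_comm (p * k) (t - 1), Finset.sum_range_add, Nat.add_comm (p * k * t)]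
    refine Nat.add_le_add le_rfl ?_
    have : ∀ j ∈ range (p * k), t ≤ #{v ∈ B | d v < t - 1 + j + 1} := by
      intro j hj
      rw [← hB]
      refine card_le_card fun v hv => ?_
      have := hBall v hv
      exact mem_filter.mpr ⟨hv, by omega⟩
    calc p * k * t = ∑ j ∈ range (p * k), t := by
          rw [Finset.sum_const, card_range, smul_eq_mul]
      _ ≤ _ := Finset.sum_le_sum this
  have hmid : (t - 1) * t ≤ ∑ i ∈ range (t - 1), #{v ∈ A | p * k + i < d v} +
      ∑ i ∈ range (t - 1), #{v ∈ B | d v < i + 1} := by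
    rw [← Finset.sum_add_distrib]
    have : ∀ i ∈ range (t - 1), t ≤ #{v ∈ A | p * k + i < d v} + #{v ∈ B | d v < i + 1} := by
      intro i hi
      rw [mem_range] at hi
      have h4 := h3 (i + 1) (by omega)
      have h5 := hAU (p * k + (i + 1))
      have h6 := hBL (i + 1)
      have h7 : #{v ∈ A | p * k + (i + 1) ≤ d v} = #{v ∈ A | p * k + i < d v} := by
        congr 1
      omega
    calc (t - 1) * t = ∑ j ∈ range (t - 1), t := by
          rw [Finset.sum_const, card_range, smul_eq_mul]
      _ ≤ _ := Finset.sum_le_sum this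
  obtain ⟨s, rfl⟩ : ∃ s, t = s + 1 := ⟨t - 1, by omega⟩
  obtain ⟨m, hm⟩ : ∃ m, p * k = m + 1 := ⟨p * k - 1, by omega⟩
  rw [hm] at hE hBc hAsum hBsum hmid
  simp only [Nat.add_sub_cancel] at hE hBc hAsum hBsum hmid
  nlinarith [hE, hBc, hAsum, hBsum, hmid]


theorem two_choose (x : ℕ) : 2 * x.choose 2 + x = x * x := by
  induction x with
  | zero => simp
  | succ n ih =>
    rw [Nat.choose_succ_succ' n 1, Nat.choose_one_right]
    nlinarith

theorem choose_add (x y : ℕ) : (x + y).choose 2 = x.choose 2 + y.choose 2 + x * y := by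
  have h1 := two_choose (x + y)
  have h2 := two_choose x
  have h3 := two_choose y
  nlinarith

theorem choose_convex (k x : ℕ) : k.choose 2 + k * x ≤ x.choose 2 + k * k := by
  rcases Nat.le_total x k with h | h
  · obtain ⟨y, rfl⟩ := Nat.exists_eq_add_of_le h
    rw [choose_add]
    have h3 := two_choose y
    nlinarith
  · obtain ⟨y, rfl⟩ := Nat.exists_eq_add_of_le h
    rw [choose_add]
    nlinarith

theorem choose_step (k t m : ℕ) (htk : t ≤ k) (hm : m < t) :
    k + (t - 1).choose 2 ≤ k * (t - m) + m.choose 2 := by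
  obtain ⟨s, rfl⟩ : ∃ s, t = m + s + 1 := ⟨t - m - 1, by omega⟩
  have h1 : m + s + 1 - 1 = m + s := by omega
  have h2 : m + s + 1 - m = s + 1 := by omega
  rw [h1, h2, choose_add]
  have h3 := two_choose s
  rcases Nat.eq_zero_or_pos s with h0 | h0
  · subst h0
    simp
  · nlinarith [Nat.mul_le_mul_right s htk]

/-- The counting lemma. -/
theorem count_lower (d : V → ℕ) (k p t i : ℕ) (hp : 1 ≤ p)
    (htk : t ≤ k) (hi : i ≤ t) (hd : ∀ v, d v < p * k + t) :
    ∑ w ∈ range p, (#{v : V | i + w * k ≤ d v ∧ d v < i + (w + 1) * k}).choose 2 +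
      ((#{v : V | d v < t}).choose 2 - (#{v : V | i ≤ d v ∧ d v < t}).choose 2) +
      ((#{v : V | p * k ≤ d v}).choose 2 -
        (#{v : V | p * k ≤ d v ∧ d v < p * k + i}).choose 2) ≤
    #{s ∈ (univ : Finset V).powersetCard 2 |
      ∀ x ∈ s, ∀ y ∈ s, |(d x : ℤ) - (d y : ℤ)| < (k : ℤ)} := by
  classical
  have hkp : k ≤ p * k := Nat.le_mul_of_pos_left k hp
  set win : ℕ → Finset V := fun w => {v : V | i + w * k ≤ d v ∧ d v < i + (w + 1) * k} with hwin
  set L : Finset V := {v : V | d v < t} with hL
  set L' : Finset V := {v : V | i ≤ d v ∧ d v < t} with hL'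
  set U : Finset V := {v : V | p * k ≤ d v} with hU
  set U' : Finset V := {v : V | p * k ≤ d v ∧ d v < p * k + i} with hU'
  have hLL : L' ⊆ L := by
    intro v hv
    simp only [hL, hL', mem_filter, mem_univ, true_and] at hv ⊢
    exact hv.2
  have hUU : U' ⊆ U := by
    intro v hv
    simp only [hU, hU', mem_filter, mem_univ, true_and] at hv ⊢
    exact hv.1
  set W : Finset (Finset V) := (range p).biUnion (fun w => (win w).powersetCard 2) with hW
  set Bt : Finset (Finset V) := L.powersetCard 2 \ L'.powersetCard 2 with hBt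
  set Tp : Finset (Finset V) := U.powersetCard 2 \ U'.powersetCard 2 with hTp
  have cW : #W = ∑ w ∈ range p, (#(win w)).choose 2 := by
    rw [hW, Finset.card_biUnion]
    · exact Finset.sum_congr rfl fun w _ => card_powersetCard 2 _
    · intro w _ w' _ hne
      rw [Function.onFun, Finset.disjoint_left]
      intro s hs hs'
      rw [mem_powersetCard] at hs hs'
      obtain ⟨x, hx⟩ : s.Nonempty := by
        rw [← card_pos, hs.2]; norm_num
      have h1 := hs.1 hx
      have h2 := hs'.1 hx
      simp only [hwin, mem_filter, mem_univ, true_and] at h1 h2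
      rcases Nat.lt_or_gt_of_ne hne with h | h
      · have : (w + 1) * k ≤ w' * k := Nat.mul_le_mul_right k h
        omega
      · have : (w' + 1) * k ≤ w * k := Nat.mul_le_mul_right k h
        omega
  have cB : #Bt = (#L).choose 2 - (#L').choose 2 := by
    rw [hBt, Finset.card_sdiff_of_subset (powersetCard_mono hLL), card_powersetCard,
      card_powersetCard]
  have cT : #Tp = (#U).choose 2 - (#U').choose 2 := by
    rw [hTp, Finset.card_sdiff_of_subset (powersetCard_mono hUU), card_powersetCard,
      card_powersetCard]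
  have hBtmem : ∀ s ∈ Bt, (∀ x ∈ s, d x < t) ∧ #s = 2 ∧ ∃ x ∈ s, d x < i := by
    intro s hs
    rw [hBt, mem_sdiff, mem_powersetCard, mem_powersetCard] at hs
    obtain ⟨⟨h1, h2⟩, h3⟩ := hs
    have h1' : ∀ x ∈ s, d x < t := by
      intro x hx
      have := h1 hx
      simpa [hL] using this
    refine ⟨h1', h2, ?_⟩
    by_contra hcon
    push Not at hcon
    refine h3 ⟨fun x hx => ?_, h2⟩
    simp only [hL', mem_filter, mem_univ, true_and]
    exact ⟨hcon x hx, h1' x hx⟩
  have hTpmem : ∀ s ∈ Tp, (∀ x ∈ s, p * k ≤ d x) ∧ #s = 2 ∧ ∃ x ∈ s, p * k + i ≤ d x := by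
    intro s hs
    rw [hTp, mem_sdiff, mem_powersetCard, mem_powersetCard] at hs
    obtain ⟨⟨h1, h2⟩, h3⟩ := hs
    have h1' : ∀ x ∈ s, p * k ≤ d x := by
      intro x hx
      have := h1 hx
      simpa [hU] using this
    refine ⟨h1', h2, ?_⟩
    by_contra hcon
    push Not at hcon
    refine h3 ⟨fun x hx => ?_, h2⟩
    simp only [hU', mem_filter, mem_univ, true_and]
    exact ⟨h1' x hx, hcon x hx⟩
  have hWmem : ∀ s ∈ W, #s = 2 ∧ ∃ w < p, ∀ x ∈ s, i + w * k ≤ d x ∧ d x < i + (w + 1) * k := by
    intro s hs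
    rw [hW, mem_biUnion] at hs
    obtain ⟨w, hw, hs⟩ := hs
    rw [mem_powersetCard] at hs
    refine ⟨hs.2, w, mem_range.mp hw, fun x hx => ?_⟩
    have := hs.1 hx
    simpa [hwin] using this
  have dWB : Disjoint W Bt := by
    rw [Finset.disjoint_left]
    intro s hs hs'
    obtain ⟨_, w, _, h1⟩ := hWmem s hs
    obtain ⟨_, _, x, hx, h2⟩ := hBtmem s hs'
    have := (h1 x hx).1
    omega
  have dWT : Disjoint (W ∪ Bt) Tp := by
    rw [Finset.disjoint_left]
    intro s hs hs'
    obtain ⟨h0, h0', x, hx, h2⟩ := hTpmem s hs'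
    rcases mem_union.mp hs with hs | hs
    · obtain ⟨_, w, hw, h1⟩ := hWmem s hs
      have h3 := (h1 x hx).2
      have : (w + 1) * k ≤ p * k := Nat.mul_le_mul_right k hw
      omega
    · obtain ⟨h4, _, _⟩ := hBtmem s hs
      have h5 := h4 x hx
      omega
  rw [← cW, ← cB, ← cT, ← card_union_of_disjoint dWB, ← card_union_of_disjoint dWT]
  refine card_le_card fun s hs => ?_
  rw [mem_filter, mem_powersetCard]
  rcases mem_union.mp hs with hs | hs
  · rcases mem_union.mp hs with hs | hs
    · obtain ⟨h0, w, hw, h1⟩ := hWmem s hs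
      refine ⟨⟨subset_univ _, h0⟩, fun x hx y hy => ?_⟩
      have h2 := h1 x hx
      have h3 := h1 y hy
      have h4 : (w + 1) * k = w * k + k := by ring
      rw [abs_lt]
      constructor <;> omega
    · obtain ⟨h4, h0, _⟩ := hBtmem s hs
      refine ⟨⟨subset_univ _, h0⟩, fun x hx y hy => ?_⟩
      have h2 := h4 x hx
      have h3 := h4 y hy
      rw [abs_lt]
      constructor <;> omega
  · obtain ⟨h4, h0, _⟩ := hTpmem s hs
    refine ⟨⟨subset_univ _, h0⟩, fun x hx y hy => ?_⟩
    have h2 := h4 x hx
    have h3 := h4 y hy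
    have h5 := hd x
    have h6 := hd y
    rw [abs_lt]
    constructor <;> omega

theorem card_windows (d : V → ℕ) (k p i : ℕ) :
    ∑ w ∈ range p, #{v : V | i + w * k ≤ d v ∧ d v < i + (w + 1) * k} +
      #{v : V | p * k + i ≤ d v} + #{v : V | d v < i} = Fintype.card V := by
  classical
  induction p with
  | zero =>
    simp only [range_zero, sum_empty, zero_mul, zero_add]
    rw [← Finset.card_univ, ← Finset.card_filter_add_card_filter_not (s := univ)
      (p := fun v => i ≤ d v)]
    congr 2
    ext v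
    simp
  | succ p ih =>
    rw [Finset.sum_range_succ, ← ih]
    have h1 : #{v : V | p * k + i ≤ d v} =
        #{v : V | i + p * k ≤ d v ∧ d v < i + (p + 1) * k} +
          #{v : V | (p + 1) * k + i ≤ d v} := by
      rw [← card_union_of_disjoint]
      · congr 1
        ext v
        simp only [mem_filter, mem_univ, true_and, mem_union]
        have h4 : (p + 1) * k = p * k + k := by ring
        omega
      · rw [Finset.disjoint_left]
        intro v hv hv'
        simp only [mem_filter, mem_univ, true_and] at hv hv'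
        omega
    rw [h1]
    omega

/-- Numerical form of the main result. -/
theorem numeric (d : V → ℕ) (k p t : ℕ) (hp : 1 ≤ p) (ht : 1 ≤ t)
    (htk : t ≤ k) (hV : Fintype.card V = p * k + t) (hd : ∀ v, d v < p * k + t)
    (hEG : ∀ A B : Finset V, #A = t → #B = t → Disjoint A B →
      ∑ v ∈ A, d v ≤ ∑ v ∈ B, d v + t * (p * k - 1)) :
    p * k.choose 2 + k + (t - 1).choose 2 ≤
    #{s ∈ (univ : Finset V).powersetCard 2 |
      ∀ x ∈ s, ∀ y ∈ s, |(d x : ℤ) - (d y : ℤ)| < (k : ℤ)} := by
  classical
  -- the reduction for a good threshold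
  have key : ∀ i, i ≤ t → #{v : V | p * k + i ≤ d v} + #{v : V | d v < i} < t →
      (#{v : V | p * k + i ≤ d v} = 0 ∨ t ≤ #{v : V | p * k ≤ d v} ∨ #{v : V | d v < i} = 0) →
      p * k.choose 2 + k + (t - 1).choose 2 ≤
      #{s ∈ (univ : Finset V).powersetCard 2 |
        ∀ x ∈ s, ∀ y ∈ s, |(d x : ℤ) - (d y : ℤ)| < (k : ℤ)} := by
    intro i hi hlt hor
    refine le_trans ?_ (count_lower d k p t i hp htk hi hd)
    have hL : #{v : V | d v < t} = #{v : V | d v < i} + #{v : V | i ≤ d v ∧ d v < t} := by
      rw [← card_union_of_disjoint]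
      · congr 1
        ext v
        simp only [mem_filter, mem_univ, true_and, mem_union]
        omega
      · rw [Finset.disjoint_left]
        intro v hv hv'
        simp only [mem_filter, mem_univ, true_and] at hv hv'
        omega
    have hU : #{v : V | p * k ≤ d v} =
        #{v : V | p * k + i ≤ d v} + #{v : V | p * k ≤ d v ∧ d v < p * k + i} := by
      rw [← card_union_of_disjoint]
      · congr 1
        ext v
        simp only [mem_filter, mem_univ, true_and, mem_union]
        omega
      · rw [Finset.disjoint_left]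
        intro v hv hv'
        simp only [mem_filter, mem_univ, true_and] at hv hv'
        omega
    have hcw := card_windows d k p i
    rw [hV] at hcw
    have hconv : p * k.choose 2 +
        k * ∑ w ∈ range p, #{v : V | i + w * k ≤ d v ∧ d v < i + (w + 1) * k} ≤
        ∑ w ∈ range p, (#{v : V | i + w * k ≤ d v ∧ d v < i + (w + 1) * k}).choose 2 +
          p * (k * k) := by
      have h0 : p * k.choose 2 = ∑ w ∈ range p, k.choose 2 := by
        rw [Finset.sum_const, card_range, smul_eq_mul]
      have h1 : p * (k * k) = ∑ w ∈ range p, k * k := by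
        rw [Finset.sum_const, card_range, smul_eq_mul]
      rw [h0, h1, Finset.mul_sum, ← Finset.sum_add_distrib, ← Finset.sum_add_distrib]
      exact Finset.sum_le_sum fun w _ => choose_convex k _
    rw [hL, hU, choose_add, choose_add]
    rw [hU] at hor
    generalize ∑ w ∈ range p, (#{v : V | i + w * k ≤ d v ∧ d v < i + (w + 1) * k}).choose 2 = S
      at hconv ⊢
    generalize ∑ w ∈ range p, #{v : V | i + w * k ≤ d v ∧ d v < i + (w + 1) * k} = M
      at hconv hcw
    generalize #{v : V | p * k + i ≤ d v} = A at *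
    generalize #{v : V | d v < i} = B at *
    generalize #{v : V | i ≤ d v ∧ d v < t} = b at *
    generalize #{v : V | p * k ≤ d v ∧ d v < p * k + i} = a at *
    have hstep := choose_step k t (A + B) htk hlt
    rw [choose_add] at hstep
    have hAB : A * B ≤ A * a := by
      rcases hor with h | h | h
      · simp [h]
      · exact Nat.mul_le_mul_left A (by omega)
      · simp [h]
    have hM : M = p * k + (t - (A + B)) := by omega
    have hS : p * k.choose 2 + k * (t - (A + B)) ≤ S := by
      rw [hM] at hconv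
      nlinarith
    have e1 : B.choose 2 + b.choose 2 + B * b - b.choose 2 = B.choose 2 + B * b := by omega
    have e2 : A.choose 2 + a.choose 2 + A * a - a.choose 2 = A.choose 2 + A * a := by omega
    rw [e1, e2]
    have := Nat.zero_le (B * b)
    omega
  rcases exists_threshold d k p t hp ht htk hV hd hEG with h | h | ⟨h1, h2, i, hi, h3⟩
  · refine key 0 (Nat.zero_le t) ?_ (Or.inr (Or.inr ?_))
    · simpa using h
    · simp
  · have h0 : #{v : V | p * k + t ≤ d v} = 0 := by
      rw [card_eq_zero, filter_eq_empty_iff]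
      intro v _
      have := hd v
      omega
    refine key t le_rfl ?_ (Or.inl h0)
    rw [h0]
    simpa using h
  · exact key i hi h3 (Or.inr (Or.inl h1))

end Aux

section Graph

variable {V : Type*} [Fintype V] [DecidableEq V] (G : SimpleGraph V) [DecidableRel G.Adj]

/-- The degree-sum inequality for two disjoint sets of the same size. -/
theorem degree_sum_ineq (A B : Finset V) (t : ℕ) (hA : #A = t) (hB : #B = t)
    (hdisj : Disjoint A B) (n : ℕ) (hn : Fintype.card V = n) (ht : 2 * t ≤ n) :
    ∑ v ∈ A, G.degree v ≤ ∑ v ∈ B, G.degree v + t * (n - t - 1) := by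
  classical
  -- edges from A into B are counted by B as well
  have h1 : ∀ v ∈ A, G.degree v ≤ #{w ∈ B | G.Adj v w} + (n - t - 1) := by
    intro v hv
    have h2 : G.degree v = #{w ∈ B | G.Adj v w} + #{w ∈ univ \ B | G.Adj v w} := by
      rw [← G.card_neighborFinset_eq_degree, ← card_union_of_disjoint]
      · congr 1
        ext w
        simp only [SimpleGraph.mem_neighborFinset, mem_union, mem_filter, mem_sdiff, mem_univ,
          true_and]
        tauto
      · rw [Finset.disjoint_left]
        intro w hw hw'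
        simp only [mem_filter, mem_sdiff, mem_univ, true_and] at hw hw'
        exact hw'.1 hw.1
    have h3 : #{w ∈ univ \ B | G.Adj v w} ≤ n - t - 1 := by
      have h4 : {w ∈ univ \ B | G.Adj v w} ⊆ (univ \ B).erase v := by
        intro w hw
        simp only [mem_filter, mem_sdiff, mem_univ, true_and] at hw
        simp only [mem_erase, mem_sdiff, mem_univ, true_and]
        exact ⟨fun h => G.loopless.irrefl v (by rw [h] at hw; exact hw.2), hw.1⟩
      refine (card_le_card h4).trans ?_
      rw [card_erase_of_mem, card_sdiff_of_subset (subset_univ B), card_univ, hn, hB]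
      simp only [mem_sdiff, mem_univ, true_and]
      exact Finset.disjoint_left.mp hdisj hv
    omega
  have h2 : ∑ v ∈ A, #{w ∈ B | G.Adj v w} ≤ ∑ v ∈ B, G.degree v := by
    have h3 : ∑ v ∈ A, #{w ∈ B | G.Adj v w} = ∑ w ∈ B, #{v ∈ A | G.Adj v w} := by
      simp_rw [Finset.card_filter]
      rw [Finset.sum_comm]
    rw [h3]
    refine Finset.sum_le_sum fun w _ => ?_
    rw [← G.card_neighborFinset_eq_degree]
    refine card_le_card fun v hv => ?_
    rw [mem_filter] at hv
    rw [SimpleGraph.mem_neighborFinset]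
    exact hv.2.symm
  calc ∑ v ∈ A, G.degree v ≤ ∑ v ∈ A, (#{w ∈ B | G.Adj v w} + (n - t - 1)) :=
        Finset.sum_le_sum h1
    _ = ∑ v ∈ A, #{w ∈ B | G.Adj v w} + t * (n - t - 1) := by
        rw [Finset.sum_add_distrib, Finset.sum_const, hA, smul_eq_mul]
    _ ≤ _ := Nat.add_le_add_right h2 _

end Graph

/-- For all integers `n > k ≥ 1`, every graph on `n` vertices has at least `f0 n k` pairs of
distinct vertices whose degrees differ by less than `k`. -/
theorem result : ∀ (n k : ℕ), 1 ≤ k → k < n → ∀ (V : Type) [Fintype V] [DecidableEq V],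
    Fintype.card V = n → ∀ (G : SimpleGraph V) [DecidableRel G.Adj],
      f0 n k ≤ closePairs G k := by
  intro n k hk hkn V _ _ hV G _
  -- write n = p * k + t with 1 ≤ t ≤ k
  obtain ⟨p, t, hp, ht, htk, hn⟩ : ∃ p t, 1 ≤ p ∧ 1 ≤ t ∧ t ≤ k ∧ n = p * k + t := by
    refine ⟨(n - 1) / k, (n - 1) % k + 1, ?_, ?_, ?_, ?_⟩
    · exact (Nat.one_le_div_iff hk).mpr (by omega)
    · omega
    · exact Nat.mod_lt _ hk
    · have := Nat.div_add_mod (n - 1) k
      rw [Nat.mul_comm] at this
      omega
  have hceil : ⌈(n : ℚ) / (k : ℚ)⌉₊ = p + 1 := by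
    rw [Nat.ceil_eq_iff (by omega)]
    have hk' : (0 : ℚ) < k := by exact_mod_cast hk
    constructor
    · rw [lt_div_iff₀ hk', hn]
      push_cast
      have : (1 : ℚ) ≤ t := by exact_mod_cast ht
      linarith
    · rw [div_le_iff₀ hk', hn]
      push_cast
      have : (t : ℚ) ≤ k := by exact_mod_cast htk
      linarith
  have hf0 : f0 n k = p * k.choose 2 + k + (t - 1).choose 2 := by
    unfold f0
    rw [hceil]
    have h1 : n - k * (p + 1 - 1) - 1 = t - 1 := by
      rw [Nat.add_sub_cancel, hn, Nat.mul_comm k p]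
      omega
    rw [h1]
    obtain ⟨r, rfl⟩ : ∃ r, p = r + 1 := ⟨p - 1, by omega⟩
    have h2 : r + 1 + 1 - 2 = r := by omega
    rw [h2, Nat.choose_succ_succ' k 1, Nat.choose_one_right]
    ring
  rw [hf0]
  unfold closePairs
  have hkp : k ≤ p * k := Nat.le_mul_of_pos_left k hp
  refine numeric (fun v => G.degree v) k p t hp ht htk (by rw [hV, hn]) (fun v => ?_) ?_
  · have := G.degree_lt_card_verts v
    omega
  · intro A B hA hB hdisj
    have h := degree_sum_ineq G A B t hA hB hdisj n hV (by omega)
    have h1 : n - t - 1 = p * k - 1 := by omega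
    rw [h1] at h
    exact h

end Pool.Agent.Results.MP_3eb7f1_co.MinClosePairs
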